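import Pool.Agent.Lib.MP_e28b35_co.Strat

namespace Pool.Agent.Results.MP_e28b35_co.StrongDraw

/-- the 109 winning lines of the cube -/
def IsLine (L : Set (Fin 3 → Fin 5)) : Prop :=
  ∃ x : Fin 5 → Fin 3 → Fin 5, L = Set.range x ∧
    (∀ j, (∃ a, ∀ i, x i j = a) ∨ (∀ i, x i j = i) ∨ (∀ i, x i j = i.rev)) ∧
    ¬ ∀ j, ∃ a, ∀ i, x i j = a

theorem result : ∀ e : ℕ, e = 0 ∨ e = 1 →
    ∃ σ : List (Fin 3 → Fin 5) → (Fin 3 → Fin 5),
      (∀ l, l.length < 125 → σ l ∉ l) ∧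
      ∀ l : List (Fin 3 → Fin 5), l.Nodup →
        (∀ k : Fin l.length, k.val % 2 = e → l.get k = σ (l.take k.val)) →
        ∀ L, IsLine L → ¬ L ⊆ {c | ∃ k : Fin l.length, k.val % 2 ≠ e ∧ l.get k = c} := by
  intro e he
  refine ⟨Pool.Agent.Lib.MP_e28b35_co.strat e, Pool.Agent.Lib.MP_e28b35_co.strat_legal e, ?_⟩
  rintro l hn hf L ⟨x, rfl, h1, h2⟩ hL
  have h3 : ∀ j, ∃ a : Fin 5, ∃ s : Fin 3, (s = 0 → ∃ a, ∀ i, x i j = a) ∧
      ∀ i, x i j = if s = 0 then a else if s = 1 then i else i.rev := by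
    intro j
    rcases h1 j with ⟨a, h⟩ | h | h
    · exact ⟨a, 0, fun _ => ⟨a, h⟩, by simpa using h⟩
    · exact ⟨0, 1, by simp, by simpa using h⟩
    · exact ⟨0, 2, by simp, by simpa using h⟩
  choose a s h4 h5 using h3
  refine Pool.Agent.Lib.MP_e28b35_co.strat_list (by omega) l hn hf a s ?_ fun i => ?_
  · by_contra hc
    exact h2 fun j => h4 j (by_contra fun v => hc ⟨j, v⟩)
  · obtain ⟨k, k1, k2⟩ := hL ⟨i, rfl⟩
    exact ⟨k, k1, k2.trans (funext fun j => h5 j i)⟩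

end Pool.Agent.Results.MP_e28b35_co.StrongDraw
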